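import Mathlib

set_option autoImplicit false

namespace Pool.Agent.Helper976.Rec

/-- the integer form of the equation -/
def E (w x y z : ℤ) : Prop := x * y * z + w * y * z + w * x * z + w * x * y + 1 = 0

lemma E_of_rat {w x y z : ℤ} (hw : w ≠ 0) (hx : x ≠ 0) (hy : y ≠ 0) (hz : z ≠ 0)
    (h : (1 / w + 1 / x + 1 / y + 1 / z + 1 / (w * x * y * z) : ℚ) = 0) : E w x y z := by
  have hw' : (w : ℚ) ≠ 0 := by exact_mod_cast hw
  have hx' : (x : ℚ) ≠ 0 := by exact_mod_cast hx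
  have hy' : (y : ℚ) ≠ 0 := by exact_mod_cast hy
  have hz' : (z : ℚ) ≠ 0 := by exact_mod_cast hz
  unfold E
  have h2 : (x * y * z + w * y * z + w * x * z + w * x * y + 1 : ℚ) = 0 := by
    have h3 : (x * y * z + w * y * z + w * x * z + w * x * y + 1 : ℚ) =
        (1 / w + 1 / x + 1 / y + 1 / z + 1 / (w * x * y * z)) * (w * x * y * z) := by
      field_simp
    rw [h3, h, zero_mul]
  exact_mod_cast h2

lemma swap12 {w x y z : ℤ} (h : E w x y z) : E x w y z := by unfold E at *; linarith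
lemma swap23 {w x y z : ℤ} (h : E w x y z) : E w y x z := by unfold E at *; linarith
lemma swap34 {w x y z : ℤ} (h : E w x y z) : E w x z y := by unfold E at *; linarith

/-- one of the three shifted entries is small -/
lemma small_entry {w x y z : ℤ} (hw : 1 ≤ |w|) (h : E w x y z) :
    |x + w| ≤ 2 * |w| ∨ |y + w| ≤ 2 * |w| ∨ |z + w| ≤ 2 * |w| := by
  by_contra hcon
  push Not at hcon
  obtain ⟨h1, h2, h3⟩ := hcon
  have hid : (x + w) * (y + w) * (z + w) = w ^ 2 * ((x + w) + (y + w) + (z + w)) - 2 * w ^ 3 - 1 := by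
    unfold E at h
    linear_combination h
  have habs : |x + w| * |y + w| * |z + w| ≤
      |w| ^ 2 * (|x + w| + |y + w| + |z + w|) + 2 * |w| ^ 3 + 1 := by
    rw [← abs_mul, ← abs_mul, hid]
    have a1 : |w ^ 2 * ((x + w) + (y + w) + (z + w))| ≤ |w| ^ 2 * (|x + w| + |y + w| + |z + w|) := by
      rw [abs_mul, abs_pow]
      exact mul_le_mul_of_nonneg_left (abs_add_three _ _ _) (by positivity)
    have a2 : |2 * w ^ 3| = 2 * |w| ^ 3 := by
      rw [abs_mul, abs_pow]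
      norm_num
    have a3 := abs_sub (w ^ 2 * ((x + w) + (y + w) + (z + w)) - 2 * w ^ 3) 1
    have a4 := abs_sub (w ^ 2 * ((x + w) + (y + w) + (z + w))) (2 * w ^ 3)
    rw [abs_one] at a3
    linarith
  generalize |w| = W at *
  generalize |x + w| = A at *
  generalize |y + w| = B at *
  generalize |z + w| = C at *
  have hA : 2 * W + 1 ≤ A := h1
  have hB : 2 * W + 1 ≤ B := h2
  have hC : 2 * W + 1 ≤ C := h3
  have k1 : (2 * W + 1) * (2 * W + 1) ≤ A * B := mul_le_mul hA hB (by linarith) (by linarith)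
  have k2 : (2 * W + 1) * (2 * W + 1) ≤ B * C := mul_le_mul hB hC (by linarith) (by linarith)
  have k3 : (2 * W + 1) * (2 * W + 1) ≤ A * C := mul_le_mul hA hC (by linarith) (by linarith)
  have l1 : (2 * W + 1) * (2 * W + 1) * C ≤ A * B * C := mul_le_mul_of_nonneg_right k1 (by linarith)
  have l2 : (2 * W + 1) * (2 * W + 1) * A ≤ B * C * A := mul_le_mul_of_nonneg_right k2 (by linarith)
  have l3 : (2 * W + 1) * (2 * W + 1) * B ≤ A * C * B := mul_le_mul_of_nonneg_right k3 (by linarith)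
  have m : (W * W + 4 * W + 1) * (6 * W + 3) ≤ (W * W + 4 * W + 1) * (A + B + C) :=
    mul_le_mul_of_nonneg_left (by linarith) (by nlinarith)
  nlinarith [mul_pos (show 0 < W by linarith) (show 0 < W by linarith),
    mul_pos (mul_pos (show 0 < W by linarith) (show 0 < W by linarith)) (show 0 < W by linarith)]

/-- the key factorisation -/
lemma factor {w x y z : ℤ} (h : E w x y z) :
    ((x + w) * (y + w) - w ^ 2) * ((x + w) * (z + w) - w ^ 2) = w ^ 2 * x ^ 2 - x - w := by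
  unfold E at h
  linear_combination (x + w) * h

lemma R_ne {w x : ℤ} (hw : w ≠ 0) (hx : x ≠ 0) : w ^ 2 * x ^ 2 - x - w ≠ 0 := by
  intro h
  have hW : 1 ≤ |w| := Int.one_le_abs hw
  have hX : 1 ≤ |x| := Int.one_le_abs hx
  have h1 : (|w| * |x|) * (|w| * |x|) = x + w := by
    have : (|w| * |x|) * (|w| * |x|) = (|w| * |w|) * (|x| * |x|) := by ring
    rw [this, abs_mul_abs_self, abs_mul_abs_self]
    linarith
  have h2 : x + w ≤ |x| + |w| := add_le_add (le_abs_self x) (le_abs_self w)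
  have h3 : |x| + |w| ≤ 1 + |w| * |x| := by nlinarith
  have h4 : 1 ≤ |w| * |x| := by nlinarith
  have h5 : |w| * |x| ≤ 1 := by nlinarith
  have h6 : |w| ≤ 1 := by nlinarith
  have h7 : |x| ≤ 1 := by nlinarith
  have h8 : |w| = 1 := le_antisymm h6 hW
  have h9 : |x| = 1 := le_antisymm h7 hX
  rw [h8, h9] at h1
  rcases (abs_eq (by norm_num)).mp h8 with a | a <;> rcases (abs_eq (by norm_num)).mp h9 with b | b <;>
    omega

lemma bound_of {w x y z : ℤ} (hw : w ≠ 0) (hx : x ≠ 0) (h : E w x y z) (hX : x + w ≠ 0)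
    (hs : |x + w| ≤ 2 * |w|) : |z| ≤ 9 * |w| ^ 4 + |w| ^ 2 + 5 * |w| := by
  have hW : 1 ≤ |w| := Int.one_le_abs hw
  have hR := factor h
  have hne := R_ne hw hx
  have hf1 : (x + w) * (y + w) - w ^ 2 ≠ 0 := by
    intro h0
    rw [h0, zero_mul] at hR
    exact hne hR.symm
  have h1 : |(x + w) * (z + w) - w ^ 2| ≤ |w ^ 2 * x ^ 2 - x - w| := by
    rw [← hR, abs_mul]
    exact le_mul_of_one_le_left (abs_nonneg _) (Int.one_le_abs hf1)
  have hxx : |x| ≤ 3 * |w| := by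
    have := abs_sub (x + w) w
    rw [add_sub_cancel_right] at this
    linarith
  have h2 : |w ^ 2 * x ^ 2 - x - w| ≤ 9 * |w| ^ 4 + 4 * |w| := by
    have a1 := abs_sub (w ^ 2 * x ^ 2 - x) w
    have a2 := abs_sub (w ^ 2 * x ^ 2) x
    have a3 : |w ^ 2 * x ^ 2| = |w| ^ 2 * |x| ^ 2 := by rw [abs_mul, abs_pow, abs_pow]
    have a4 : |x| ^ 2 ≤ (3 * |w|) ^ 2 := pow_le_pow_left₀ (abs_nonneg x) hxx 2
    have a5 : |w| ^ 2 * |x| ^ 2 ≤ |w| ^ 2 * (3 * |w|) ^ 2 :=
      mul_le_mul_of_nonneg_left a4 (by positivity)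
    have a6 : |w| ^ 2 * (3 * |w|) ^ 2 = 9 * |w| ^ 4 := by ring
    linarith
  have h3 : |z + w| ≤ |(x + w) * (z + w)| := by
    rw [abs_mul]
    exact le_mul_of_one_le_left (abs_nonneg _) (Int.one_le_abs hX)
  have h4 : |(x + w) * (z + w)| ≤ |(x + w) * (z + w) - w ^ 2| + |w| ^ 2 := by
    have := abs_add_le ((x + w) * (z + w) - w ^ 2) (w ^ 2)
    rw [sub_add_cancel, abs_pow w 2] at this
    exact this
  have h5 : |z| ≤ |z + w| + |w| := by
    have := abs_sub (z + w) w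
    rw [add_sub_cancel_right] at this
    exact this
  linarith

/-- all other entries are bounded when `|w| ≥ 2` -/
lemma bound_all {w x y z : ℤ} (hw : 2 ≤ |w|) (hx : x ≠ 0) (hy : y ≠ 0) (hz : z ≠ 0)
    (h : E w x y z) : |x| ≤ 10 * w ^ 4 ∧ |y| ≤ 10 * w ^ 4 ∧ |z| ≤ 10 * w ^ 4 := by
  have hw0 : w ≠ 0 := by
    rintro rfl
    simp at hw
  have hB : 9 * |w| ^ 4 + |w| ^ 2 + 5 * |w| ≤ 10 * w ^ 4 := by
    have h1 : w ^ 4 = |w| ^ 4 := by
      rw [← abs_pow]
      exact (abs_of_nonneg (by positivity)).symm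
    rw [h1]
    generalize |w| = W at *
    have h2 : 4 ≤ W * W := by nlinarith
    have h3 : W ^ 4 = (W * W) * (W * W) := by ring
    have h4 : W ^ 2 = W * W := by ring
    rw [h3, h4]
    nlinarith
  have hB2 : 3 * |w| ≤ 10 * w ^ 4 := by
    have : (0 : ℤ) ≤ |w| ^ 4 := by positivity
    have : (0 : ℤ) ≤ |w| ^ 2 := by positivity
    linarith
  -- the shifted entry is not zero
  have hne : ∀ {a b c : ℤ}, E w a b c → a + w ≠ 0 := by
    intro a b c hE h0
    have ha : a = -w := by linarith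
    subst ha
    unfold E at hE
    have h1 : w * (w * (b + c)) = 1 := by linear_combination -hE
    have h2 : w ∣ 1 := ⟨_, h1.symm⟩
    have h3 := Int.isUnit_iff.mp (isUnit_of_dvd_one h2)
    rcases h3 with h3 | h3 <;> rw [h3] at hw <;> norm_num at hw
  have main : ∀ {a b c : ℤ}, a ≠ 0 → E w a b c → |a + w| ≤ 2 * |w| →
      |a| ≤ 10 * w ^ 4 ∧ |b| ≤ 10 * w ^ 4 ∧ |c| ≤ 10 * w ^ 4 := by
    intro a b c ha hE hs
    refine ⟨?_, (bound_of hw0 ha (swap34 hE) (hne hE) hs).trans hB,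
      (bound_of hw0 ha hE (hne hE) hs).trans hB⟩
    have := abs_sub (a + w) w
    rw [add_sub_cancel_right] at this
    linarith
  rcases small_entry (by linarith) h with hs | hs | hs
  · exact main hx h hs
  · obtain ⟨h1, h2, h3⟩ := main hy (swap23 h) hs
    exact ⟨h2, h1, h3⟩
  · obtain ⟨h1, h2, h3⟩ := main hz (swap23 (swap34 h)) hs
    exact ⟨h2, h3, h1⟩

/-- the conclusion for `w = 1`, before symmetrisation -/
lemma one_aux {x y z : ℤ} (hx : x ≠ 0) (hy : y ≠ 0) (hz : z ≠ 0) (h : E 1 x y z)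
    (hs : |x + 1| ≤ 2 * |(1 : ℤ)|) :
    (x = -1 ∧ y + z = 1) ∨ (y = -1 ∧ x + z = 1) ∨ (z = -1 ∧ x + y = 1) ∨
      (x = -2 ∧ y = -3 ∧ z = -7) ∨ (x = -2 ∧ y = -7 ∧ z = -3) ∨ (x = -3 ∧ y = -2 ∧ z = -7) ∨
      (x = -3 ∧ y = -7 ∧ z = -2) := by
  by_cases hX : x + 1 = 0
  · left
    have hx1 : x = -1 := by linarith
    subst hx1
    unfold E at h
    exact ⟨rfl, by linarith⟩
  have b1 := bound_of one_ne_zero hx h hX hs
  have b2 := bound_of one_ne_zero hx (swap34 h) hX hs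
  rw [abs_one] at hs b1 b2
  norm_num at hs b1 b2
  rw [abs_le] at hs b1 b2
  obtain ⟨s1, s2⟩ := hs
  obtain ⟨b3, b4⟩ := b2
  unfold E at h
  have hx' : x = -3 ∨ x = -2 ∨ x = 1 := by omega
  rcases hx' with rfl | rfl | rfl
  · interval_cases y <;> omega
  · interval_cases y <;> omega
  · interval_cases y <;> omega

/-- the conclusion for `w = -1`, before symmetrisation -/
lemma neg_one_aux {x y z : ℤ} (hx : x ≠ 0) (hy : y ≠ 0) (hz : z ≠ 0) (h : E (-1) x y z)
    (hs : |x + (-1)| ≤ 2 * |(-1 : ℤ)|) :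
    (x = 1 ∧ y + z = 1) ∨ (y = 1 ∧ x + z = 1) ∨ (z = 1 ∧ x + y = 1) ∨
      (x = 2 ∧ y = 3 ∧ z = 5) ∨ (x = 2 ∧ y = 5 ∧ z = 3) ∨ (x = 3 ∧ y = 2 ∧ z = 5) ∨
      (x = 3 ∧ y = 5 ∧ z = 2) := by
  by_cases hX : x + (-1) = 0
  · left
    have hx1 : x = 1 := by linarith
    subst hx1
    unfold E at h
    exact ⟨rfl, by linarith⟩
  have b1 := bound_of (by norm_num) hx h hX hs
  have b2 := bound_of (by norm_num) hx (swap34 h) hX hs
  rw [abs_neg, abs_one] at hs b1 b2
  norm_num at hs b1 b2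
  rw [abs_le] at hs b1 b2
  obtain ⟨s1, s2⟩ := hs
  obtain ⟨b3, b4⟩ := b2
  unfold E at h
  have hx' : x = -1 ∨ x = 2 ∨ x = 3 := by omega
  rcases hx' with rfl | rfl | rfl
  · interval_cases y <;> omega
  · interval_cases y <;> omega
  · interval_cases y <;> omega

end Pool.Agent.Helper976.Rec
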